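import Pool.Agent.P8H30.MX.Main

/-!
# Project MX, package FIN
-/

set_option autoImplicit false

open PowerSeries Module

namespace Pool.Agent.P8H30.MX

open Pool.Agent.Y113 (ps ev SDc)
open Pool.Agent.Y119.HY (Am cm cm_apply cm_mul E kx aq)
open Pool.Agent.Y119.HZ (Hp)
open Pool.Agent.P8H40.HA (Nz Zc Vx Pm Pm_mul Pm_one Pm_comm eval_ne val_eq exp_eq periods_eq TrdegGe.transpose)
open Pool.Agent.Results.MP_cbf1af_ag.AllTuplesDegenerating (toQ GCond val periods rank TrdegGe Bound)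

variable {n : ℕ} {Q f : Polynomial ℚ} {g : ℕ → ℚ⟦X⟧}

lemma const_kx (f : Polynomial ℚ) : constantCoeff (Polynomial.aeval (kx 0) f) = f.eval 0 := by
  have h := Pool.Agent.Y119.HY.const_aeval 0 f
  rw [Nat.cast_zero] at h
  exact h

/-- the constant matrix of the gauge transformation -/
noncomputable def Pg (n : ℕ) (f : Polynomial ℚ) : Matrix (Fin n) (Fin n) ℂ :=
  cm (Pm n (Polynomial.aeval (kx 0) f)⁻¹)

lemma Pg_mul (n : ℕ) (hf : f.eval 0 ≠ 0) : cm (Pm n (Polynomial.aeval (kx 0) f)) * Pg n f = 1 := by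
  unfold Pg
  rw [← cm_mul, Pm_mul, PowerSeries.mul_inv_cancel _ (by rw [const_kx]; exact hf), Pm_one, Pool.Agent.Y119.HY.cm_one]

lemma Pg_comm (n : ℕ) (f : Polynomial ℚ) (s : ℂ) : Pg n f * E (cm (Am n)) s = E (cm (Am n)) s * Pg n f := by
  have h1 : Commute (Pg n f) (cm (Am n)) := by
    show Pg n f * cm (Am n) = cm (Am n) * Pg n f
    unfold Pg
    rw [← cm_mul, Pm_comm, cm_mul]
  unfold E
  rw [Finset.mul_sum, Finset.sum_mul]
  refine Finset.sum_congr rfl fun i _ => ?_
  rw [mul_smul_comm, smul_mul_assoc, (h1.pow_right i).eq]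

/-- the period matrix -/
noncomputable def Yh (n : ℕ) (g : ℕ → ℚ⟦X⟧) (c t : ℕ) : Matrix (Fin n) (Fin n) ℂ :=
  Vx (Hg n g) ((t : ℝ) / c) * E (cm (Am n)) (-((Real.log t : ℝ) : ℂ))

/-- the gauge transformation of the period matrices -/
theorem gauge_Yh (hV : S_VAL) (hQ : QG n Q) (hf : f.eval 0 ≠ 0) (h0 : g 0 = 1)
    (hg : ∀ k, g k * Polynomial.aeval (kx 0) f = aq n Q k * Polynomial.aeval (kx k) f) (c : ℕ) (hc : 1 ≤ c) :
    ∃ t₀ : ℕ, c < t₀ ∧ ∀ t : ℕ, t₀ ≤ t → ∃ Γ : Matrix (Fin n) (Fin n) ℚ, IsUnit Γ ∧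
      Yh n g c t = Γ.map (algebraMap ℚ ℂ) *
        (Vx (Hp n Q) ((t : ℝ) / c) * E (cm (Am n)) (-((Real.log t : ℝ) : ℂ)) * Pg n f) := by
  obtain ⟨e, G, hG, h⟩ := hV n Q f g hQ hf h0 hg
  obtain ⟨t₁, ht₁⟩ := eval_ne G.det hG c
  refine ⟨t₁ + c + 1, by omega, fun t ht => ?_⟩
  have hc0 : (0 : ℝ) < c := by exact_mod_cast hc
  have htc : c < t := by omega
  have ht0 : (0 : ℝ) < t := by
    have : 0 < t := by omega
    exact_mod_cast this
  have hx : 1 < (t : ℝ) / c := by
    rw [lt_div_iff₀ hc0, one_mul]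
    exact_mod_cast htc
  set q : ℚ := (c : ℚ) / t with hq
  have hqx : (q : ℝ) = 1 / ((t : ℝ) / c) := by
    rw [hq]
    push_cast
    field_simp
  have hq1 : 1 - q ≠ 0 := by
    intro h0
    have h1 : (q : ℝ) = 1 := by
      have : q = 1 := by linarith
      rw [this]
      simp
    rw [hqx, div_eq_one_iff_eq (by positivity)] at h1
    linarith
  have h1 := h q ((t : ℝ) / c) hx hqx
  have hdet : (G.map (Polynomial.eval q)).det ≠ 0 := by
    have h2 := RingHom.map_det (Polynomial.evalRingHom q) G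
    have h3 := ht₁ t (by omega)
    intro h4
    apply h3
    rw [← hq]
    exact h2.trans h4
  refine ⟨((1 - q) ^ e)⁻¹ • G.map (Polynomial.eval q), ?_, ?_⟩
  · rw [Matrix.isUnit_iff_isUnit_det, Matrix.det_smul]
    exact IsUnit.mk0 _ (mul_ne_zero (pow_ne_zero _ (inv_ne_zero (pow_ne_zero _ hq1))) hdet)
  · have hq2 : (1 - (q : ℂ)) ^ e ≠ 0 := by
      refine pow_ne_zero _ ?_
      have : (1 - (q : ℂ)) = ((1 - q : ℚ) : ℂ) := by push_cast; rfl
      rw [this]
      exact_mod_cast hq1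
    have h2 : Vx (Hg n g) ((t : ℝ) / c) = (((1 - (q : ℂ)) ^ e)⁻¹ • ((G.map (Polynomial.eval q)).map (algebraMap ℚ ℂ))) *
        Vx (Hp n Q) ((t : ℝ) / c) * Pg n f := by
      rw [Matrix.smul_mul, ← h1, smul_smul, inv_mul_cancel₀ hq2, one_smul, Matrix.mul_assoc, Pg_mul n hf, Matrix.mul_one]
    have h3 : (((1 - q) ^ e)⁻¹ • G.map (Polynomial.eval q)).map (algebraMap ℚ ℂ) =
        ((1 - (q : ℂ)) ^ e)⁻¹ • ((G.map (Polynomial.eval q)).map (algebraMap ℚ ℂ)) := by
      ext i j
      simp only [Matrix.map_apply, Matrix.smul_apply, smul_eq_mul, map_mul, map_inv₀, map_pow, map_sub, map_one]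
      rfl
    rw [h3]
    unfold Yh
    rw [h2]
    calc _ = (((1 - (q : ℂ)) ^ e)⁻¹ • ((G.map (Polynomial.eval q)).map (algebraMap ℚ ℂ))) *
        (Vx (Hp n Q) ((t : ℝ) / c) * (Pg n f * E (cm (Am n)) (-((Real.log t : ℝ) : ℂ)))) := by
          simp only [Matrix.mul_assoc]
      _ = _ := by
          rw [Pg_comm]
          simp only [Matrix.mul_assoc]

theorem Yg_eq (n : ℕ) (g : ℕ → ℚ⟦X⟧) (c t : ℕ) (hc : 1 ≤ c) (ht : 1 ≤ t) : Yg n g c t = Yh n g c t := by
  have hc0 : (c : ℝ) ≠ 0 := by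
    have : c ≠ 0 := by omega
    exact_mod_cast this
  have ht0 : (t : ℝ) ≠ 0 := by
    have : t ≠ 0 := by omega
    exact_mod_cast this
  ext i j
  unfold Yg Yh
  rw [Matrix.of_apply, Matrix.mul_apply]
  have hE : ∀ a : Fin n, Pool.Agent.Y119.HY.E (Pool.Agent.Y119.HY.cm (Pool.Agent.Y119.HY.Am n))
      (-((Real.log t : ℝ) : ℂ)) a j = ∑ l ∈ Finset.range n,
        if (j : ℕ) = a + l then ((Real.log (1 / t) ^ l / l.factorial : ℝ) : ℂ) else 0 := by
    intro a
    unfold Pool.Agent.Y119.HY.E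
    rw [Matrix.sum_apply]
    refine Finset.sum_congr rfl fun l _ => ?_
    rw [Matrix.smul_apply, ← Pool.Agent.Y119.HY.cm_pow, Pool.Agent.Y119.HY.cm_apply, Pool.Agent.Y119.HY.Am_pow, smul_eq_mul,
      one_div, Real.log_inv]
    split_ifs
    · push_cast
      ring
    · simp
  simp only [hE, Finset.mul_sum]
  rw [Finset.sum_comm]
  have hsub : Finset.range ((j : ℕ) + 1) ⊆ Finset.range n := by
    intro l hl
    rw [Finset.mem_range] at hl ⊢
    have := j.2
    omega
  refine Finset.sum_subset_zero_on_sdiff hsub (fun l hl => ?_) fun l hl => ?_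
  · rw [Finset.mem_sdiff, Finset.mem_range, Finset.mem_range] at hl
    refine Finset.sum_eq_zero fun a _ => ?_
    rw [if_neg (by omega), mul_zero]
  · rw [Finset.mem_range] at hl
    have hj := j.2
    rw [Finset.sum_eq_single (⟨(j : ℕ) - l, by omega⟩ : Fin n)]
    · rw [if_pos (by simp only; omega), mul_comm]
      congr 1
      unfold Pool.Agent.P8H40.HA.Vx Pool.Agent.Y113.ev
      rw [Matrix.of_apply, Complex.ofReal_tsum]
      refine tsum_congr fun k => ?_
      have h1 : coeff k (Hg n g i (⟨(j : ℕ) - l, by omega⟩ : Fin n)) =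
          coeff ((j : ℕ) - l) (kx k ^ (i : ℕ) * g k) := by
        unfold Hg
        rw [Matrix.of_apply, coeff_mk]
      have h2 : (1 / ((t : ℝ) / c)) = (c : ℝ) / t := by
        field_simp
      rw [h1, h2]
      push_cast
      rfl
    · intro a _ ha
      rw [if_neg, mul_zero]
      intro h
      apply ha
      apply Fin.ext
      simp only
      omega
    · intro h
      exact absurd (Finset.mem_univ _) h

/-- the periods alone -/
theorem alone {k r δ : ℕ} {β : Type} {K : IntermediateField ℚ ℂ} {L : Fin k → ℂ} {P : Fin k → β → ℂ}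
    (h : TG (ι := Fin k × Option β) r δ K (fun x => x.2.elim (L x.1) fun p => P x.1 p)) :
    TG (ι := Fin k × β) (r - k) δ K (fun x => P x.1 x.2) := by
  classical
  obtain ⟨σ, hσ, h⟩ := h
  -- the indices of the periods
  set A : Finset (Fin r) := Finset.univ.filter fun i => (σ i).2 ≠ none with hA
  have hcard : r - k ≤ A.card := by
    have h1 : (Finset.univ.filter fun i => ¬ (σ i).2 ≠ none).card ≤ k := by
      have h2 : (Finset.univ.filter fun i => ¬ (σ i).2 ≠ none).card ≤ (Finset.univ : Finset (Fin k)).card := by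
        refine Finset.card_le_card_of_injOn (fun i => (σ i).1) (fun _ _ => Finset.mem_coe.2 (Finset.mem_univ _)) ?_
        intro i hi j hj hij
        rw [Finset.mem_coe, Finset.mem_filter, not_not] at hi hj
        exact hσ (Prod.ext hij (hi.2.trans hj.2.symm))
      simpa using h2
    have h3 : A.card + (Finset.univ.filter fun i => ¬ (σ i).2 ≠ none).card = r := by
      rw [hA, Finset.card_filter_add_card_filter_not, Finset.card_univ, Fintype.card_fin]
    omega
  obtain ⟨f⟩ : Nonempty (Fin (r - k) ↪ A) := by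
    rw [Function.Embedding.nonempty_iff_card_le, Fintype.card_fin, Fintype.card_coe]
    exact hcard
  have hex : ∀ i : A, ∃ p : β, σ i.1 = ((σ i.1).1, some p) := by
    intro i
    have h1 := (Finset.mem_filter.1 i.2).2
    obtain ⟨p, hp⟩ := Option.ne_none_iff_exists'.1 h1
    exact ⟨p, Prod.ext rfl hp⟩
  choose g hg using hex
  have hfi : Function.Injective fun i : Fin (r - k) => (f i).1 := fun i j hij => f.injective (Subtype.ext hij)
  refine ⟨fun i => ((σ (f i).1).1, g (f i)), ?_, fun Q hQ h0 => ?_⟩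
  · intro i j hij
    apply hfi
    apply hσ
    rw [hg (f i), hg (f j)]
    have h1 := (Prod.mk.inj hij).1
    have h2 := (Prod.mk.inj hij).2
    exact Prod.ext h1 (congrArg some h2)
  · have h1 := h (MvPolynomial.rename (fun i => (f i).1) Q) (fun i => ?_) (by
      rw [MvPolynomial.aeval_rename, ← h0]
      congr 2
      funext i
      have h5 : (σ (f i).1).2 = some (g (f i)) := congrArg Prod.snd (hg (f i))
      show ((σ (f i).1).2.elim (L (σ (f i).1).1) fun p => P (σ (f i).1).1 p) = P (σ (f i).1).1 (g (f i))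
      rw [h5]
      rfl)
    · exact MvPolynomial.rename_injective _ hfi (by rw [h1, map_zero])
    · by_cases hi : ∃ j, (f j).1 = i
      · obtain ⟨j, rfl⟩ := hi
        rw [MvPolynomial.degreeOf_rename_of_injective hfi]
        exact hQ j
      · have h2 : i ∉ (MvPolynomial.rename (fun i => (f i).1) Q).vars := by
          intro h3
          obtain ⟨j, -, hj⟩ := Finset.mem_image.1 (MvPolynomial.vars_rename _ _ h3)
          exact hi ⟨j, hj⟩
        have h3 : (MvPolynomial.rename (fun i => (f i).1) Q).degreeOf i = 0 := by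
          rw [MvPolynomial.degreeOf_def, Multiset.count_eq_zero]
          intro h4
          exact h2 (by rw [MvPolynomial.vars_def, Multiset.mem_toFinset]; exact h4)
        omega

/-- from the system with `Hp n Q` to the period matrices -/
lemma conv (hV : S_VAL) (hQ : QG n Q) (hf : f.eval 0 ≠ 0) (h0 : g 0 = 1)
    (hg : ∀ k, g k * Polynomial.aeval (kx 0) f = aq n Q k * Polynomial.aeval (kx k) f) {c : ℕ} (hc : 1 ≤ c) :
    ∃ t₀ : ℕ, c < t₀ ∧ ∀ (Ω : Matrix (Fin n) (Fin n) ℂ) (G k δ D r : ℕ) (κ : ℝ) (M : ℕ), t₀ ≤ M →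
      Bound (Pg n f * Ω).transpose (Nz n) (Zc n Q c) G k δ D r κ M → BG n g c Ω G k δ D r κ M := by
  classical
  obtain ⟨t₀, htc, ht₀⟩ := gauge_Yh hV hQ hf h0 hg c hc
  refine ⟨t₀, htc, fun Ω G k δ D r κ M hM hB t ht hsep K _ hK R S P hP => ?_⟩
  have hex : ∀ l, ∃ Γ : Matrix (Fin n) (Fin n) ℚ, IsUnit Γ ∧
      Yh n g c (t l) = Γ.map (algebraMap ℚ ℂ) *
        (Vx (Hp n Q) ((t l : ℝ) / c) * E (cm (Am n)) (-((Real.log (t l) : ℝ) : ℂ)) * Pg n f) := fun l =>
    ht₀ (t l) (hM.trans (ht l).1)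
  choose Γ hΓ hY using hex
  have hu : ∀ l, IsUnit ((R l : Matrix (Fin n) (Fin n) K) * (Γ l).map (algebraMap ℚ K)).transpose := by
    intro l
    rw [Matrix.isUnit_transpose]
    refine (R l).isUnit.mul ?_
    exact (hΓ l).map (RingHom.mapMatrix (algebraMap ℚ K))
  have hv : ∀ l, IsUnit ((S l : Matrix (Fin n) (Fin n) K)).transpose := by
    intro l
    rw [Matrix.isUnit_transpose]
    exact (S l).isUnit
  have h1 := hB t ht hsep K hK (fun l => (hv l).unit) (fun l => (hu l).unit)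
  have h2 : Pool.Agent.Results.MP_cbf1af_ag.AllTuplesDegenerating.TrdegGe r δ K
      (fun l => ((Real.log (t l) : ℝ) : ℂ)) P := by
    refine TrdegGe.transpose ?_
    convert h1 using 2 with l
    have ht1 : 1 ≤ t l := by
      have := (ht l).1
      omega
    rw [periods_eq _ c (t l) hc ht1]
    rw [IsUnit.unit_spec, IsUnit.unit_spec, hP l, Yg_eq n g c (t l) hc ht1, hY l]
    have h2 : ((Γ l).map (algebraMap ℚ K)).map (algebraMap K ℂ) = (Γ l).map (algebraMap ℚ ℂ) := by
      ext i j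
      simp only [Matrix.map_apply]
      rfl
    rw [Matrix.transpose_map, Matrix.transpose_map, Matrix.map_mul, h2]
    simp only [Matrix.transpose_mul, Matrix.mul_assoc]
  have h3 : TG (ι := Fin k × Option (Fin n × Fin n)) r δ K
      (fun x => x.2.elim ((Real.log (t x.1) : ℝ) : ℂ) fun p => P x.1 p.1 p.2) := h2
  exact ⟨h3, alone (β := Fin n × Fin n) (L := fun l => ((Real.log (t l) : ℝ) : ℂ))
    (P := fun l p => P l p.1 p.2) h3⟩

/-- FIN -/
theorem t_fin (hM : S_MAIN) (hV : S_VAL) : S_FIN := by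
  intro n Q f g W r T c hQ hH hW hWs hT hf h0 hg hc
  obtain ⟨G, hG⟩ := hM n Q W r T c hQ hH hW hWs hT hc
  obtain ⟨t₀, htc, hA⟩ := conv hV hQ hf h0 hg hc
  have hPi : IsUnit (Pg n f) := IsUnit.of_mul_eq_one_right _ (Pg_mul n hf)
  refine ⟨G, fun k δ D => ⟨?_, fun Ω hΩ s ω hω => ?_⟩⟩
  · obtain ⟨κ, M₀, hκ, h⟩ := (hG k δ D).1
    refine ⟨κ, max M₀ t₀, hκ, lt_of_lt_of_le htc (le_max_right _ _), fun M hM Ω hΩ => ?_⟩
    refine hA Ω G k δ D _ κ M ((le_max_right _ _).trans hM) (h M ((le_max_left _ _).trans hM) _ ?_)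
    rw [Matrix.isUnit_transpose]
    exact hPi.mul hΩ
  · have hω' : ∀ i j, IsAlgebraic (Algebra.adjoin ℚ (Set.range ω)) ((Pg n f * Ω).transpose i j) := by
      intro i j
      rw [Matrix.transpose_apply, Matrix.mul_apply]
      refine Finset.sum_induction _ (IsAlgebraic (Algebra.adjoin ℚ (Set.range ω))) (fun _ _ h1 h2 => h1.add h2)
        isAlgebraic_zero fun a _ => ?_
      refine IsAlgebraic.mul ?_ (hω a i)
      have h1 : Pg n f j a = algebraMap (Algebra.adjoin ℚ (Set.range ω)) ℂ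
          (algebraMap ℚ (Algebra.adjoin ℚ (Set.range ω))
            (Pm n (Polynomial.aeval (kx 0) f)⁻¹ j a)) := rfl
      rw [h1]
      exact isAlgebraic_algebraMap _
    have hu : IsUnit (Pg n f * Ω).transpose := by
      rw [Matrix.isUnit_transpose]
      exact hPi.mul hΩ
    obtain ⟨κ, M₀, hκ, h⟩ := (hG k δ D).2 _ hu s ω hω'
    refine ⟨κ, max M₀ t₀, hκ, lt_of_lt_of_le htc (le_max_right _ _), fun M hM => ?_⟩
    exact hA Ω G k δ D _ κ M ((le_max_right _ _).trans hM) (h M ((le_max_left _ _).trans hM))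

end Pool.Agent.P8H30.MX
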