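import Pool.Agent.P8H30.MX.Base
import Pool.Agent.P8H30.MX.Fin

/-!
# Project MX: assembly
-/

set_option autoImplicit false

open PowerSeries Module Matrix

namespace Pool.Agent.P8H30.MX

open Pool.Agent.Y113 (SDc)
open Pool.Agent.Y119.HY (kx QD QB)
open Pool.Agent.Y119.HZ (Hp QD_QB)
open Pool.Agent.P8H40.HA (Mp)

theorem t_finall : S_FIN := t_fin (t_main odi) t_val

theorem asm (m : ℕ) (hm : 1 ≤ m) (s : ℕ) (α : Fin m → ℚ)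
    (hβ : ∀ i, ∀ l : ℕ, (l : ℚ) + α i ≠ 0 ∧ (l : ℚ) + -α i ≠ 0) (hα : ∀ j, α j ≠ 0) (c : ℕ) (hc : 1 ≤ c) :
    ∃ G : ℕ, ∀ k δ D : ℕ,
      (∃ (κ : ℝ) (M₀ : ℕ), 0 < κ ∧ c < M₀ ∧ ∀ M : ℕ, M₀ ≤ M →
        ∀ Ω : Matrix (Fin (s + 2 * m)) (Fin (s + 2 * m)) ℂ, IsUnit Ω →
          BG (s + 2 * m) (gs s α) c Ω G k δ D ((k - 1) * (2 * m * (2 * m + 1) / 2 + s * (2 * m) + 1)) κ M) ∧
      ∀ Ω : Matrix (Fin (s + 2 * m)) (Fin (s + 2 * m)) ℂ, IsUnit Ω → ∀ (t : ℕ) (ω : Fin t → ℂ),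
        (∀ i j, IsAlgebraic (Algebra.adjoin ℚ (Set.range ω)) (Ω i j)) →
        ∃ (κ : ℝ) (M₀ : ℕ), 0 < κ ∧ c < M₀ ∧ ∀ M : ℕ, M₀ ≤ M →
          BG (s + 2 * m) (gs s α) c Ω G k δ D (k * (2 * m * (2 * m + 1) / 2 + s * (2 * m) + 1) - (t + 1)) κ M := by
  have hQ : QD (2 * m) (QB α) := QD_QB hm hβ
  have hG : QG (s + 2 * m) (Polynomial.X ^ s * QB α) := by
    refine ⟨by omega, (Polynomial.monic_X_pow s).mul hQ.monic, ?_⟩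
    rw [(Polynomial.monic_X_pow s).natDegree_mul hQ.monic, Polynomial.natDegree_X_pow, hQ.deg]
  have hS : ∀ i j, SDc (Hp (2 * m) (QB α) i j) := fun i j => Pool.Agent.Y119.HY.sdc_hps hβ hQ i j
  obtain ⟨h1, h2, h3⟩ := t_wdc s (2 * m) (QB α) hQ hS (t_sdh s m α hβ hQ)
  obtain ⟨T, hT⟩ := t_ind s (2 * m) (QB α) hQ
  refine t_finall (s + 2 * m) (Polynomial.X ^ s * QB α) (Mp α) (gs s α) (Wd s (2 * m) (QB α)) _ T c hG h2 h1 h3 hT ?_ ?_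
    (fun k => t_gsm m s α k) hc
  · unfold Mp
    rw [Polynomial.eval_prod]
    refine Finset.prod_ne_zero_iff.2 fun j _ => ?_
    rw [Polynomial.eval_sub, Polynomial.eval_X, Polynomial.eval_C, zero_sub]
    exact neg_ne_zero.2 (hα j)
  · unfold gs
    rw [Finset.prod_range_zero]

end Pool.Agent.P8H30.MX
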