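import Pool.Agent.P8H5.MX.Blj
import Pool.Agent.P8H21.MX.TV
import Pool.Agent.P8H21.MX.Dual
import Pool.Agent.P8H21.MX.Sng
import Pool.Agent.P8H49.MX.Val
import Pool.Agent.P8H75.MX.Blk
import Pool.Agent.P8H75.MX.Gen
import Pool.Agent.P8H53.MX.Rel
import Pool.Agent.P8H85.MX.Sdh
import Pool.Agent.P8H29.MX.Coo
import Pool.Agent.P8H29.MX.Ind
import Pool.Agent.P8H30.MX.Data

/-!
# Project MX: the packages together
-/

set_option autoImplicit false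

namespace Pool.Agent.P8H30.MX

theorem t_dual : S_DUAL := Pool.Agent.P8H21.MX.t_DUAL
theorem t_conn : S_CONN := Pool.Agent.P8H21.MX.t_CONN t_dual
theorem t_inv : S_INV := Pool.Agent.P8H21.MX.t_INV t_conn Pool.Agent.P8H21.MX.t_TV
theorem t_ebl : S_EBL := Pool.Agent.P8H5.MX.ebl
theorem t_blj : S_BLJ := Pool.Agent.P8H5.MX.blj
theorem t_blk : S_BLK := Pool.Agent.P8H75.MX.blk
theorem t_hfb : S_HFB := Pool.Agent.P8H75.MX.hfb
theorem t_gen : S_GEN := Pool.Agent.P8H75.MX.gen Pool.Agent.P8H75.MX.spg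
theorem t_sng : S_SNG := Pool.Agent.P8H21.MX.t_SNG t_hfb t_ebl
theorem t_hyp : S_HYP := Pool.Agent.P8H21.MX.t_HYP sol t_blj t_sng t_inv t_gen
theorem t_rel : S_REL := Pool.Agent.P8H53.MX.REL cvh
theorem t_ind : S_IND := Pool.Agent.P8H29.MX.ind t_hyp t_rel t_hfb t_ebl Pool.Agent.P8H29.MX.coo
theorem t_sdh : S_SDH := Pool.Agent.P8H85.MX.sdh t_blk sol
theorem t_wdc : S_WDC := Pool.Agent.P8H85.MX.wdc t_blk
theorem t_ctg : S_CTG := Pool.Agent.P8H49.MX.ctg ode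
theorem t_gau : S_GAU := Pool.Agent.P8H49.MX.gau t_ctg
theorem t_gsm : S_GSM := Pool.Agent.P8H49.MX.gsm
theorem t_val : S_VAL := Pool.Agent.P8H49.MX.val t_gau cvh

end Pool.Agent.P8H30.MX
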