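import Pool.Agent.P8H30.MX.Stm3

/-!
# Project MX, package MAIN
-/

set_option autoImplicit false

open PowerSeries Module

namespace Pool.Agent.P8H30.MX

open Pool.Agent.Y113 (ps ev SDc)
open Pool.Agent.Y119.HY (Am cm E)
open Pool.Agent.Y119.HZ (Hp T1 A1 exists_b)
open Pool.Agent.P8H40.HA (sc sc_coeff Nz Nz_map Nz_nil Zc coeff_zero_Zc rescale_ps rescale_C rescale_deriv ind_rescale
  gcond_rescale sdc_gcond)
open Pool.Agent.Results.MP_cbf1af_ag.AllTuplesDegenerating (toQ GCond val periods rank TrdegGe Bound)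

variable {n : ℕ} {Q : Polynomial ℚ}

/-- the inverse -/
noncomputable def Wg (n : ℕ) (W : Matrix (Fin n) (Fin n) ℚ⟦X⟧) (c : ℕ) : Matrix (Fin n) (Fin n) ℚ⟦X⟧ :=
  Matrix.of fun i j => rescale (c : ℚ) (W j i)

lemma Wg_mul {W : Matrix (Fin n) (Fin n) ℚ⟦X⟧} (hW : Hp n Q * W = 1) (c : ℕ) : Wg n W c * Zc n Q c = 1 := by
  ext1 i j
  have h1 := congrFun (congrFun hW j) i
  rw [Matrix.mul_apply, Matrix.one_apply] at h1
  rw [Matrix.mul_apply, Matrix.one_apply]
  unfold Wg Zc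
  simp only [Matrix.of_apply, ← map_mul]
  rw [← map_sum]
  have h2 : ∑ k, W k i * Hp n Q j k = ∑ k, Hp n Q j k * W k i := Finset.sum_congr rfl fun k _ => mul_comm _ _
  rw [h2, h1]
  by_cases h : i = j
  · rw [if_pos h, if_pos h.symm, map_one]
  · rw [if_neg h, if_neg fun h' => h h'.symm, map_zero]

lemma ode_Zg (hO : S_ODI) (hQ : QG n Q) {D : ℕ} {b : Fin n → Fin n → ℤ}
    (hb : ∀ i j, (b i j : ℚ) = D * Pool.Agent.Y119.HY.Bm n Q i j)
    (c : ℕ) (i j : Fin n) : toQ (sc (c : ℤ) (T1 D)) * (X * PowerSeries.derivative ℚ (Zc n Q c i j) +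
      ∑ k, C (Nz n i k : ℚ) * Zc n Q c k j) = ∑ k, Zc n Q c i k * toQ (sc (c : ℤ) (A1 n D b j k)) := by
  have h1 := congrArg (rescale (c : ℚ)) (hO n Q hQ D b hb j i)
  have h2 : ∀ P : Polynomial ℤ, rescale (c : ℚ) (ps P) = toQ (sc (c : ℤ) P) := by
    intro P
    have := rescale_ps (c : ℤ) P
    push_cast at this
    exact this
  rw [map_mul, map_add, map_sum, map_sum, h2] at h1
  simp only [map_mul (rescale (c : ℚ)), h2, rescale_C] at h1
  have h3 : rescale (c : ℚ) X * rescale (c : ℚ) (d⁄dX ℚ (Hp n Q j i)) = X * d⁄dX ℚ (rescale (c : ℚ) (Hp n Q j i)) := by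
    rw [← map_mul, rescale_deriv]
  rw [h3] at h1
  unfold Zc
  simp only [Matrix.of_apply]
  refine Eq.trans ?_ (h1.trans ?_)
  · congr 2
    refine Finset.sum_congr rfl fun k _ => ?_
    have h4 : (Nz n i k : ℚ) = Am n k i := by
      have := congrFun (congrFun (Nz_map n) i) k
      exact this
    rw [h4, mul_comm]
  · exact Finset.sum_congr rfl fun k _ => mul_comm _ _

lemma rank_leG {r : ℕ} {T : Fin r → Fin n × Fin n}
    (hT : AlgebraicIndependent (Polynomial ℚ) (fun i => Hp n Q (T i).1 (T i).2)) {c : ℕ} (hc : 1 ≤ c) :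
    r ≤ rank (Zc n Q c) := by
  have hc0 : (c : ℚ) ≠ 0 := by
    have : c ≠ 0 := by omega
    exact_mod_cast this
  refine le_csSup ⟨Fintype.card (Fin n × Fin n), ?_⟩ ⟨fun i => ((T i).2, (T i).1), ind_rescale hT hc0⟩
  rintro d ⟨T, hT⟩
  have h1 : Function.Injective T := by
    intro i j hij
    exact hT.injective (by
      show Zc n Q c (T i).1 (T i).2 = Zc n Q c (T j).1 (T j).2
      rw [hij])
  simpa using Fintype.card_le_of_injective T h1

/-- MAIN -/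
theorem t_main (hO : S_ODI) : S_MAIN := by
  intro n Q W r T c hQ hH hW hWs hT hc
  obtain ⟨D, b, hD, hb⟩ := exists_b n Q
  have hr := rank_leG hT hc
  have hTn : sc (c : ℤ) (T1 D) ≠ 0 := by
    intro h0
    have h1 := congrArg (fun p => Polynomial.coeff p 0) h0
    simp only [sc_coeff, pow_zero, mul_one, Polynomial.coeff_zero] at h1
    unfold T1 at h1
    rw [Polynomial.coeff_C_mul] at h1
    simp at h1
    exact hD h1
  obtain ⟨G, hG⟩ := Pool.Agent.Results.MP_cbf1af_ag.AllTuplesDegenerating.result n (sc (c : ℤ) (T1 D))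
    (Matrix.of fun k j => sc (c : ℤ) (A1 n D b j k)) (Nz n) (Zc n Q c) (Wg n W c) hTn (Nz_nil n) (ode_Zg hO hQ hb c)
    (coeff_zero_Zc c) (Wg_mul hW c) (fun i j => gcond_rescale (sdc_gcond (hH j i)) c hc)
    (fun i j => gcond_rescale (sdc_gcond (hWs j i)) c hc)
  refine ⟨G, fun k δ D => ⟨?_, fun Ω hΩ s ω hω => ?_⟩⟩
  · obtain ⟨κ, M₀, hκ, h⟩ := (hG k δ D).1
    exact ⟨κ, M₀, hκ, fun M hM Ω hΩ => Pool.Agent.P8H40.HA.Bound.mono (Nat.mul_le_mul_left _ (by omega)) (h M hM Ω hΩ)⟩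
  · obtain ⟨κ, M₀, hκ, h⟩ := (hG k δ D).2 Ω hΩ s ω hω
    exact ⟨κ, M₀, hκ, fun M hM => Pool.Agent.P8H40.HA.Bound.mono
      (Nat.sub_le_sub_right (Nat.mul_le_mul_left _ (by omega)) _) (h M hM)⟩

end Pool.Agent.P8H30.MX
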