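import Pool.Agent.Y119.HY.Rl

/-!
# Project MX: mixed hypergeometric motives at all tuples of fibres

`Q` is an even monic polynomial of degree `n` without roots at the natural numbers, `s` a natural number, `d = s + n`. The
operator `θ^d - z θ^s Q(θ) = (θ^n - z Q(θ)) ∘ θ^s` annihilates the `s`-fold logarithmic primitives of the periods. The holomorphic
part of its Frobenius matrix is `Hp (s + n) (X ^ s * Q)` in the notation of the starting files
`Pool.Agent.Y119.HY` (directory `Y119/HY`; namespaces `Y119.HY` and `Y119.HZ`); this file is about matrices over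
`Fin (s + n)`, and about block matrices `bl a b g` with the blocks `a` (`s × s`), `b` (`s × n`), `0`, `g` (`n × n`).

All packages are small; most of them are adaptations of complete proofs in `Y119/HY/*.lean` and `P8H40/HA/*.lean` (named below).
The statements are the propositions `S_...`; a package is the theorem `S_...` or an implication between them.

Put a package in its own file `Pool/Agent/P8H<your number>/MX/<Name>.lean` (import this file), with a theorem of the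
exact type given in the task table.
-/

set_option autoImplicit false

open PowerSeries Module Matrix

namespace Pool.Agent.P8H30.MX

open Pool.Agent.Y113 (ps SDc Cv)
open Pool.Agent.Y119.HY (Am um uc ec Jm kx aq hq Hq Hc Hf Yf E om tv Sol Lens Gal cm QD QB a0 hps)
open Pool.Agent.Y119.HZ (Hp Wp T1 A1 ix evq hf km th)

/-! ### general polynomials -/

/-- monic polynomials of degree `n` -/
structure QG (n : ℕ) (Q : Polynomial ℚ) : Prop where
  two : 2 ≤ n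
  monic : Q.Monic
  deg : Q.natDegree = n

/-- SOL. Copy of `step_q` (with `lin_eq`, `Bm_mul`) in `Y119/HY/Data.lean` and of `sol_c` in `Y119/HY/Data2.lean`, where only
`hQ.monic` and `hQ.deg` are used. -/
def S_SOL : Prop := ∀ (n : ℕ) (Q : Polynomial ℚ), QG n Q → Sol (cm (Am n)) (cm (Pool.Agent.Y119.HY.Bm n Q)) (Hc n Q)

/-- ODE. Copy of `ode_Hp` in `Y119/HY/Inv.lean` (only `step_q` is used). -/
def S_ODE : Prop := ∀ (n : ℕ) (Q : Polynomial ℚ), QG n Q →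
  (1 - X : ℚ⟦X⟧) • (th (Hp n Q) + Hp n Q * km (Am n)) =
    ((1 - X : ℚ⟦X⟧) • km (Am n) + (X : ℚ⟦X⟧) • km (Pool.Agent.Y119.HY.Bm n Q)) * Hp n Q

/-- ODI. Copy of `ode_int` in `Y119/HY/Inv.lean`. -/
def S_ODI : Prop := ∀ (n : ℕ) (Q : Polynomial ℚ), QG n Q → ∀ (D : ℕ) (b : Fin n → Fin n → ℤ),
  (∀ i j, (b i j : ℚ) = D * Pool.Agent.Y119.HY.Bm n Q i j) → ∀ i j : Fin n,
    ps (T1 D) * (X * d⁄dX ℚ (Hp n Q i j) + ∑ k, Hp n Q i k * C (Am n k j)) = ∑ k, ps (A1 n D b i k) * Hp n Q k j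

/-- CVH. Copy of `Cv_Hp` in `Y119/HY/Rl.lean` (from SOL). -/
def S_CVH : Prop := ∀ (n : ℕ) (Q : Polynomial ℚ), QG n Q → ∀ t : ℝ, 1 < t → ∀ i j : Fin n, Cv t (Hp n Q i j)

/-! ### analytic part -/

/-- DUAL. Copy of `self_pair` in `Y119/HY/Gal.lean` for two solutions of dual systems: the derivative of
`(Yf (-N0ᵀ) H' w)ᵀ * Yf N0 H w` vanishes on the lens (`Yf_ode` for both; `Gm (-N0ᵀ) (-N1ᵀ) z = -(Gm N0 N1 z)ᵀ`), so it is a
constant `S` (`const_Lens`); by `PA.log_zero` applied to the entries of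
`(Hf H' w)ᵀ * Hf H w - (E (-N0ᵀ) (-L))ᵀ * S * E N0 (-L)` and `w = 0`, `L = 0`, it is `1`. -/
def S_DUAL : Prop := ∀ (n : ℕ) (N0 N1 : Matrix (Fin n) (Fin n) ℂ) (H H' : ℕ → Matrix (Fin n) (Fin n) ℂ), N0 ^ n = 0 →
  Sol N0 N1 H → Sol (-N0.transpose) (-N1.transpose) H' → ∀ z ∈ Lens, (Yf (-N0.transpose) H' z).transpose * Yf N0 H z = 1

/-- CONN. As `connect` in `Y119/HY/Gal.lean`, without a nondegenerate form. Let `H'` and `K'` be solutions (`exists_sol`) of the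
dual systems `(-Aᵀ, -Bᵀ)` and `(Bᵀ, Aᵀ)` (dual to `(A, B)` and to `(-B, -A)`), `Z z = Yf (-B) K (1 - z)`,
`Z' z = Yf Bᵀ K' (1 - z)`. By DUAL, `Z'ᵀ Z = 1` on the lens, hence `Z Z'ᵀ = 1`, and `Yf A H` is invertible on
the lens. `M = Z'(z)ᵀ * Yf A H z` is constant on the lens (derivative zero, `const_Lens`; both factors are differentiable
with known derivatives), so `Yf A H z = Z z * M`; `M` is invertible as the product of invertible matrices at `z = 1/2`. If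
`J` satisfies the two relations, `(Yf A H z)ᵀ J (Yf A H z) = J` and `(Z z)ᵀ J (Z z) = J` by `self_pair` (which holds for any
`J`), hence `Mᵀ J M = J`. -/
def S_CONN : Prop := ∀ (n : ℕ) (A B : Matrix (Fin n) (Fin n) ℂ) (H K : ℕ → Matrix (Fin n) (Fin n) ℂ), A ^ n = 0 →
  (-B) ^ n = 0 → Sol A B H → Sol (-B) (-A) K →
    ∃ M Mi : Matrix (Fin n) (Fin n) ℂ, M * Mi = 1 ∧ Mi * M = 1 ∧ (∀ z ∈ Lens, Yf A H z = Yf (-B) K (1 - z) * M) ∧
      ∀ J : Matrix (Fin n) (Fin n) ℂ, A.transpose * J + J * A = 0 → B.transpose * J + J * B = 0 → M.transpose * J * M = J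

/-- TV. `exists_sub` and `all_tv` in `Y119/HY/Grp.lean` for degenerate `J`: the hypothesis `om J v (N ^ (n - 1) v) ≠ 0` there is
used only to see that `N ^ (n - 1) v ≠ 0` (so that `pl N v l ≠ 0` for every nonzero linear form `l`) and that the linear form
`l2 = om J v` is not zero. Copy the proofs. (`conj_mem`, `add_mem'`, `closed_mem` can be cited.) -/
def S_TV : Prop := ∀ (n : ℕ) (J N : Matrix (Fin n) (Fin n) ℂ) (v : Fin n → ℂ) (S : Submonoid (Matrix (Fin n) (Fin n) ℂ)),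
  J.transpose = -J → N ^ n = 0 → N.transpose * J + J * N = 0 → (N ^ (n - 1)) *ᵥ v ≠ 0 → (∃ x, om J v x ≠ 0) →
    (∀ c : ℂ, ∀ g ∈ S, E N c * g * E N (-c) ∈ S) → (∀ c, tv J v c ∈ S) →
      (∀ M : Matrix (Fin n) (Fin n) (Polynomial ℂ), (∀ c : ℂ, c ≠ 0 → M.map (Polynomial.eval c) ∈ S) →
        M.map (Polynomial.eval 0) ∈ S) → ∀ x c, tv J x c ∈ S

/-- INV. Copy of `invar` in `Y119/HY/Main.lean` with CONN in the place of `connect` and TV in the place of `sp_all`. Here `e` is not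
assumed to be in the kernel of `A`; if `om J v e = 0` for `v = Mi u`, then `(-B) (M e) = 0` and
`Yf A H z *ᵥ e = Hf K (1 - z) *ᵥ (M *ᵥ e)` on the lens, which contradicts the last hypothesis. -/
def S_INV : Prop := ∀ (n : ℕ) (J A : Matrix (Fin n) (Fin n) ℂ) (u e : Fin n → ℂ) (H : ℕ → Matrix (Fin n) (Fin n) ℂ)
  (i0 : Fin n), 2 ≤ n → J.transpose = -J → A ^ n = 0 → A.transpose * J + J * A = 0 →
    Sol A (-vecMulVec u (u ᵥ* J)) H → (∀ v, om J v e ≠ 0 → (A ^ (n - 1)) *ᵥ v ≠ 0) →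
      (∀ g : ℂ → ℂ, AnalyticOnNhd ℂ g (Metric.ball 1 1) → (∀ z ∈ Lens, (Yf A H z *ᵥ e) i0 = g z) → False) →
        ∀ x c, tv J x c ∈ Gal (Yf A H)

/-! ### block matrices -/

/-- the block matrix with the blocks `a, b, 0, g` -/
def bl {R : Type*} [CommRing R] {s n : ℕ} (a : Matrix (Fin s) (Fin s) R) (b : Matrix (Fin s) (Fin n) R)
    (g : Matrix (Fin n) (Fin n) R) : Matrix (Fin (s + n)) (Fin (s + n)) R :=
  Matrix.reindex finSumFinEquiv finSumFinEquiv (Matrix.fromBlocks a b 0 g)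

theorem bl_mul {R : Type*} [CommRing R] {s n : ℕ} (a a' : Matrix (Fin s) (Fin s) R) (b b' : Matrix (Fin s) (Fin n) R)
    (g g' : Matrix (Fin n) (Fin n) R) : bl a b g * bl a' b' g' = bl (a * a') (a * b' + b * g') (g * g') := by
  unfold bl
  rw [Matrix.reindex_apply, Matrix.reindex_apply, Matrix.reindex_apply, Matrix.submatrix_mul_equiv,
    Matrix.fromBlocks_multiply]
  simp

theorem bl_one {R : Type*} [CommRing R] {s n : ℕ} : (bl 1 0 1 : Matrix (Fin (s + n)) (Fin (s + n)) R) = 1 := by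
  unfold bl
  rw [Matrix.fromBlocks_one, Matrix.reindex_apply, Matrix.submatrix_one_equiv]

theorem bl_natAdd {R : Type*} [CommRing R] {s n : ℕ} (a : Matrix (Fin s) (Fin s) R) (b : Matrix (Fin s) (Fin n) R)
    (g : Matrix (Fin n) (Fin n) R) (i j : Fin n) : bl a b g (Fin.natAdd s i) (Fin.natAdd s j) = g i j := by
  simp [bl]

theorem bl_castAdd {R : Type*} [CommRing R] {s n : ℕ} (a : Matrix (Fin s) (Fin s) R) (b : Matrix (Fin s) (Fin n) R)
    (g : Matrix (Fin n) (Fin n) R) (i j : Fin s) : bl a b g (Fin.castAdd n i) (Fin.castAdd n j) = a i j := by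
  simp [bl]

theorem bl_right {R : Type*} [CommRing R] {s n : ℕ} (a : Matrix (Fin s) (Fin s) R) (b : Matrix (Fin s) (Fin n) R)
    (g : Matrix (Fin n) (Fin n) R) (i : Fin s) (j : Fin n) : bl a b g (Fin.castAdd n i) (Fin.natAdd s j) = b i j := by
  simp [bl]

theorem bl_left {R : Type*} [CommRing R] {s n : ℕ} (a : Matrix (Fin s) (Fin s) R) (b : Matrix (Fin s) (Fin n) R)
    (g : Matrix (Fin n) (Fin n) R) (i : Fin n) (j : Fin s) : bl a b g (Fin.natAdd s i) (Fin.castAdd n j) = 0 := by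
  simp [bl]

/-- SPG. The last part of the proof of `sp_all` in `Y119/HY/Grp.lean` (from `set ω` on), with the hypothesis in the place of
`all_tv`. -/
def S_SPG : Prop := ∀ (n : ℕ) (J : Matrix (Fin n) (Fin n) ℂ) (S : Submonoid (Matrix (Fin n) (Fin n) ℂ)), J.transpose = -J →
  J.det ≠ 0 → (∀ x c, tv J x c ∈ S) → ∀ g, g.transpose * J * g = J → g ∈ S

/-- GEN. Write `x = (y, w)`. Then `x ᵥ* bl 0 0 J = (0, w ᵥ* J)` and `tv (bl 0 0 J) x c = bl 1 (c • y ⊗ (w ᵥ* J)) (tv J w c)`.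
(1) The matrices `g` with `bl 1 0 g ∈ S` form a submonoid which contains all `tv J w c` (take `y = 0`); by SPG it contains all
`g` with `gᵀ J g = J`. (2) `tv (bl 0 0 J) (y, w) 1 * bl 1 0 (tv J w (-1)) = bl 1 (y ⊗ (w ᵥ* J)) 1`, as
`(w ᵥ* J) ᵥ* tv J w (-1) = w ᵥ* J` (`om_self`) and `tv_mul_neg`. So `bl 1 (y ⊗ ψ) 1 ∈ S` for all `y, ψ` (`w = ψ ᵥ* J⁻¹`).
(3) `b ↦ bl 1 b 1` turns sums into products and `b = ∑ i, e_i ⊗ (b i)`, so `bl 1 b 1 ∈ S` for all `b`.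
(4) `bl 1 b g = bl 1 0 g * bl 1 b 1`. -/
def S_GEN : Prop := ∀ (s n : ℕ) (J : Matrix (Fin n) (Fin n) ℂ) (S : Submonoid (Matrix (Fin (s + n)) (Fin (s + n)) ℂ)),
  J.transpose = -J → J.det ≠ 0 → (∀ x c, tv (bl 0 0 J) x c ∈ S) → ∀ b g, g.transpose * J * g = J → bl 1 b g ∈ S

/-- EBL. `Am (s + n) = bl (Am s) c (Am n)`, where `c` has the single entry `1` at the place `(s - 1, 0)`; powers of block matrices
are block matrices (`bl_mul`, induction) with the diagonal blocks `Am s ^ i`, `Am n ^ i`, and `(Am n) ^ i = 0` for `i ≥ n`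
(`Am_nil`, `Ac_nil`). -/
def S_EBL : Prop := ∀ (s n : ℕ) (L : ℂ), ∃ (P : Matrix (Fin s) (Fin s) ℂ) (R : Matrix (Fin s) (Fin n) ℂ),
  E (cm (Am (s + n))) L = bl P R (E (cm (Am n)) L)

/-- BLJ. The degenerate form. From `Jc_skew`, `Jc_rel`, `cm_Bm` and `Am (s + n) = bl (Am s) c (Am n)`. For the third part:
`Bm (s + n) (X ^ s * Q)` has the last row `(0, …, 0, Q.coeff 0, …, Q.coeff (n - 1))`, that is `bl 0 0 (Bm n Q)`
(`Polynomial.coeff_X_pow_mul'`; here `2 ≤ n` from `hQ.two`), and `uc (s + n) = (0, uc n)`. -/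
def S_BLJ : Prop := ∀ (s n : ℕ) (Q : Polynomial ℚ), QD n Q →
  (bl 0 0 (cm (Jm n Q)) : Matrix (Fin (s + n)) (Fin (s + n)) ℂ).transpose = -bl 0 0 (cm (Jm n Q)) ∧
  (cm (Am (s + n))).transpose * bl 0 0 (cm (Jm n Q)) + bl 0 0 (cm (Jm n Q)) * cm (Am (s + n)) = 0 ∧
  cm (Pool.Agent.Y119.HY.Bm (s + n) (Polynomial.X ^ s * Q)) =
    -vecMulVec (uc (s + n)) (uc (s + n) ᵥ* bl 0 0 (cm (Jm n Q)))

/-- the upper right block of the holomorphic part: `∑_{k ≥ 1} [ε^j] ((k + ε)^(i - s) a_k(ε)) z^k` -/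
noncomputable def HC (s n : ℕ) (Q : Polynomial ℚ) : Matrix (Fin s) (Fin n) ℚ⟦X⟧ :=
  Matrix.of fun i j => PowerSeries.mk fun k =>
    if k = 0 then 0 else PowerSeries.coeff (j : ℕ) (((kx k)⁻¹) ^ (s - (i : ℕ)) * aq n Q k)

/-- BLK. For `k ≥ 1` one has `aq (s + n) (X ^ s * Q) k = X ^ s * ((kx k)⁻¹) ^ s * aq n Q k` (telescoping product, induction on
`k ≥ 1`; `kx l` is invertible for `l ≥ 1`, `kx_succ_mul_inv`; `kx 0 = X`), and `aq _ _ 0 = 1`. Then compare coefficients: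
`hq (s + n) (X ^ s * Q) k i j = coeff j (X ^ s * (kx k) ^ i * ((kx k)⁻¹) ^ s * aq n Q k)`, which is `0` for `j < s`, and for
`j = s + j'` it is `coeff j' ((kx k) ^ i * ((kx k)⁻¹) ^ s * aq n Q k)`; distinguish `i < s` and `i = s + i'`. -/
def S_BLK : Prop := ∀ (s n : ℕ) (Q : Polynomial ℚ), Hp (s + n) (Polynomial.X ^ s * Q) = bl 1 (HC s n Q) (Hp n Q)

/-- HFB. The same for the values, from BLK (`Hf (Hc n Q) z i j` is the sum of the series `Hp n Q i j` at `z`; all entries are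
compared coefficientwise: `Hq (s + n) (X ^ s * Q) k` is a block matrix for every `k`). -/
def S_HFB : Prop := ∀ (s n : ℕ) (Q : Polynomial ℚ) (z : ℂ), ∃ b : Matrix (Fin s) (Fin n) ℂ,
  Hf (Hc (s + n) (Polynomial.X ^ s * Q)) z = bl 1 b (Hf (Hc n Q) z)

/-- the basis vector with the index `s` -/
def es (s n : ℕ) : Fin (s + n) → ℂ := fun i => if (i : ℕ) = s then 1 else 0

/-- SNG. (1) `om (bl 0 0 J) v (es s n) = om J v' (ec n)` for the lower part `v'` of `v`, which is `-v_last * Q(0)` by `om_ec`; and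
`(cm (Am (s + n)) ^ (s + n - 1)) *ᵥ v = v_last • ec (s + n)` by `Ac_last`. (2) The entry `(s, s)` of
`Yf = Hf * E (cm (Am _)) (log z)` is the entry `(s, s)` of `Hf` (HFB and EBL: lower right block `Hf (Hc n Q) z * E (cm (Am n)) L`,
entry `(0, 0)`, first column of `E` is `ec n` by `E_fix`, `Ac_ec`), which equals `(Hf (Hc n Q) z *ᵥ ec n) 0`. Apply
`Pool.Agent.Y119.HY.sing`. -/
def S_SNG : Prop := ∀ (s n : ℕ) (Q : Polynomial ℚ) (i0 : Fin (s + n)), QD n Q → (i0 : ℕ) = s →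
  (∀ v, om (bl 0 0 (cm (Jm n Q))) v (es s n) ≠ 0 → (cm (Am (s + n)) ^ (s + n - 1)) *ᵥ v ≠ 0) ∧
  ∀ g : ℂ → ℂ, AnalyticOnNhd ℂ g (Metric.ball 1 1) →
    (∀ z ∈ Lens, (Yf (cm (Am (s + n))) (Hc (s + n) (Polynomial.X ^ s * Q)) z *ᵥ es s n) i0 = g z) → False

/-- HYP. From SOL, BLJ, SNG, INV, GEN (and `Ac_nil`, `Jc_skew`, `Jc_det`, `Gal` of `Y119/HY/Gal.lean`). -/
def S_HYP : Prop := ∀ (s n : ℕ) (Q : Polynomial ℚ), QD n Q → ∀ (b : Matrix (Fin s) (Fin n) ℂ) (g : Matrix (Fin n) (Fin n) ℂ),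
  g.transpose * cm (Jm n Q) * g = cm (Jm n Q) →
    bl 1 b g ∈ Gal (Yf (cm (Am (s + n))) (Hc (s + n) (Polynomial.X ^ s * Q)))

/-- REL. Copy of `rel_inv` (with `ev_aeval`) in `Y119/HY/Rl.lean`; `PR`, `ev_PR` and `ev_Hp` there need no hypothesis on `Q` and can be
cited; CVH is used in the place of `Cv_Hp`. -/
def S_REL : Prop := ∀ (n : ℕ) (Q : Polynomial ℚ), QG n Q → ∀ R : MvPolynomial (Fin (n * n)) (Polynomial ℚ),
  MvPolynomial.aeval (hf n Q) R = 0 → ∀ x : ℝ, 0 < x → x < 1 → ∀ κ : Matrix (Fin n) (Fin n) ℂ,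
    (∀ L : ℂ, E (cm (Am n)) (-L) * κ * E (cm (Am n)) L ∈ Gal (Yf (cm (Am n)) (Hc n Q))) →
      MvPolynomial.eval₂ (evq (x : ℂ)) (fun j => (Hf (Hc n Q) (x : ℂ) * κ) (ix n j).1 (ix n j).2) R = 0

/-! ### arithmetic -/

/-- SDH. Copy of `hq_den` and `sdc_hps` in `Y119/HY/Ari.lean`. Denominators: with `L = lcmUpto (…)` as there, `k • (kx k)⁻¹` is in
`SL L` for `1 ≤ k ≤ K` (`kx k = k (1 + X / k)`, `SL_inv`, `SL_lin`) and `k ∣ L`; so
`(kx k)⁻¹ ^ r * aq` has the denominator `k ^ r * M ^ k * L ^ (2 m)`, and `L ^ r * M ^ K * L ^ (2 m)` is a common one for all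
`1 ≤ k ≤ K`, with `r = s - i`. Growth: by BLK the coefficients are entries of `Hq (s + n) (X ^ s * Q)`, use SOL (or the claim
for `Hc` in `Sol.growth`), or estimate directly. -/
def S_SDH : Prop := ∀ (s m : ℕ) (β : Fin m → ℚ), (∀ i, ∀ l : ℕ, (l : ℚ) + β i ≠ 0 ∧ (l : ℚ) + -β i ≠ 0) →
  QD (2 * m) (QB β) → ∀ i j, SDc (HC s (2 * m) (QB β) i j)

/-- the inverse of the holomorphic part -/
noncomputable def Wd (s n : ℕ) (Q : Polynomial ℚ) : Matrix (Fin (s + n)) (Fin (s + n)) ℚ⟦X⟧ :=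
  bl 1 (-(HC s n Q * Wp n Q)) (Wp n Q)

/-- WDC. From BLK, `bl_mul`, `mul_Wp` (`Y119/HY/Inv.lean`), and `SDc_Wp`, `SDc_C`, `SDc.sum'`, `SDc.mul`, `SDc.add`; the indices are
split by `Fin.addCases`. -/
def S_WDC : Prop := ∀ (s n : ℕ) (Q : Polynomial ℚ), QD n Q → (∀ i j, SDc (Hp n Q i j)) → (∀ i j, SDc (HC s n Q i j)) →
  Hp (s + n) (Polynomial.X ^ s * Q) * Wd s n Q = 1 ∧ (∀ i j, SDc (Hp (s + n) (Polynomial.X ^ s * Q) i j)) ∧
    ∀ i j, SDc (Wd s n Q i j)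

end Pool.Agent.P8H30.MX
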