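import Pool.Agent.P8H30.MX.Stm
import Pool.Agent.P8H40.HA.Val

/-!
# Project MX, second part: coordinates and gauge transformations
-/

set_option autoImplicit false

open PowerSeries Module Matrix

namespace Pool.Agent.P8H30.MX

open Pool.Agent.Y113 (ps SDc Cv)
open Pool.Agent.Y119.HY (Am um uc ec Jm kx aq hq Hq Hc Hf Yf E om tv Sol Lens Gal cm QD QB a0 hps)
open Pool.Agent.Y119.HZ (Hp Wp T1 A1 ix evq hf km th)
open Pool.Agent.P8H40.HA (sc Vx Pm rr Md Mp M0)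

/-- COO. Let `T₀` be the places of `exists_coords` (`P8H40/HA/Sp.lean`). The places are `T₀`, shifted to the lower right block,
and all places of the upper right block. Given `P ≠ 0` in the variables `Fin (n (n + 1) / 2 + s n) ≃ Fin (n (n + 1) / 2) ⊕
(Fin s × Fin n)`, regard `P` as a polynomial in the variables of the second kind with coefficients in the
polynomials in the variables of the first kind (`MvPolynomial.sumAlgEquiv`), or the other way: there is `b` such that the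
polynomial in the variables of the first kind obtained by the substitution of `b` is not zero; apply `exists_coords` to it. -/
def S_COO : Prop := ∀ (s n : ℕ) (J : Matrix (Fin n) (Fin n) ℂ), J.transpose = -J → J.det ≠ 0 →
  ∃ T : Fin (n * (n + 1) / 2 + s * n) → Fin (s + n) × Fin (s + n), ∀ P : MvPolynomial (Fin (n * (n + 1) / 2 + s * n)) ℂ,
    P ≠ 0 → ∃ (b : Matrix (Fin s) (Fin n) ℂ) (g : Matrix (Fin n) (Fin n) ℂ), g.transpose * J * g = J ∧
      MvPolynomial.eval (fun i => bl 1 b g (T i).1 (T i).2) P ≠ 0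

/-- IND. Copy of `ind` in `P8H40/HA/Ind.lean`. At a point `x` in `(0, 1)` with a nonvanishing coefficient one takes `(b, g)` from COO
with `P(bl 1 b g) ≠ 0` and applies REL to `κ = (Hf_d(x))⁻¹ * bl 1 b g`, where `Hf_d(x) = bl 1 b₀ h` (HFB) with
`hᵀ J h = J` (`Hf_form` in `P8H40/HA/Ind.lean`); `h` has an inverse `W` with `Wᵀ J W = J` (`isom_inv`), so
`κ = bl 1 (-(b₀ W)) W * bl 1 b g = bl 1 _ (W * g)`. The hypothesis of REL: `E (-L) * κ * E L = bl 1 _ (E (-L) * W * g * E L)`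
(EBL; the upper left block is `1` since `E (-L) * E L = 1`), and the lower right block preserves `J` (`E_isom`, `isom_mul`), so
HYP applies. -/
def S_IND : Prop := ∀ (s n : ℕ) (Q : Polynomial ℚ), QD n Q →
  ∃ T : Fin (n * (n + 1) / 2 + s * n) → Fin (s + n) × Fin (s + n),
    AlgebraicIndependent (Polynomial ℚ) (fun i => Hp (s + n) (Polynomial.X ^ s * Q) (T i).1 (T i).2)

/-! ### gauge transformations -/

/-- CTG. Copy of `Md.nab` and `Md_rr` in `P8H40/HA/Ctg.lean`, with ODE in the place of `ode_Hp`. -/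
def S_CTG : Prop := ∀ (n : ℕ) (Q : Polynomial ℚ), QG n Q → ∀ f : Polynomial ℚ, Md n Q (rr n Q f)

/-- the matrix with the entries `∑_k [ε^j] ((k + ε)^i g_k(ε)) z^k` -/
noncomputable def Hg (n : ℕ) (g : ℕ → ℚ⟦X⟧) : Matrix (Fin n) (Fin n) ℚ⟦X⟧ :=
  Matrix.of fun i j => PowerSeries.mk fun k => PowerSeries.coeff (j : ℕ) (kx k ^ (i : ℕ) * g k)

/-- GAU. Copy of `Ha_mul`, `coeff_zero_Ha`, `M0_ne`, `Pm_inv`, `gauge` in `P8H40/HA/Ctg2.lean`, for a general polynomial `f` with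
`f(0) ≠ 0` in the place of `Mp α`; from CTG. -/
def S_GAU : Prop := ∀ (n : ℕ) (Q f : Polynomial ℚ) (g : ℕ → ℚ⟦X⟧), QG n Q → f.eval 0 ≠ 0 → g 0 = 1 →
  (∀ k, g k * Polynomial.aeval (kx 0) f = aq n Q k * Polynomial.aeval (kx k) f) →
    ∃ (e : ℕ) (G : Matrix (Fin n) (Fin n) (Polynomial ℚ)),
      (∀ i j, (1 - X : ℚ⟦X⟧) ^ e * (∑ l, Hg n g i l * C (Pm n (Polynomial.aeval (kx 0) f) l j)) =
        ∑ l, (G i l : ℚ⟦X⟧) * Hp n Q l j) ∧ Polynomial.eval 0 G.det ≠ 0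

/-- VAL. Copy of `Cv_Ha` and `val_gauge` in `P8H40/HA/Val.lean`; from GAU and CVH. -/
def S_VAL : Prop := ∀ (n : ℕ) (Q f : Polynomial ℚ) (g : ℕ → ℚ⟦X⟧), QG n Q → f.eval 0 ≠ 0 → g 0 = 1 →
  (∀ k, g k * Polynomial.aeval (kx 0) f = aq n Q k * Polynomial.aeval (kx k) f) →
    ∃ (e : ℕ) (G : Matrix (Fin n) (Fin n) (Polynomial ℚ)), Polynomial.eval 0 G.det ≠ 0 ∧
      ∀ (q : ℚ) (x : ℝ), 1 < x → (q : ℝ) = 1 / x →
        ((1 - (q : ℂ)) ^ e) • (Vx (Hg n g) x * cm (Pm n (Polynomial.aeval (kx 0) f))) =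
          (G.map (Polynomial.eval q)).map (algebraMap ℚ ℂ) * Vx (Hp n Q) x

/-- the period matrix: the entries are `(θ^i f_j)(1 / t)`, where `f_j(x)` is the coefficient of `ε^j` in
`∑_k g_k(ε) c^k x^(k + ε)` -/
noncomputable def Yg (n : ℕ) (g : ℕ → ℚ⟦X⟧) (c t : ℕ) : Matrix (Fin n) (Fin n) ℂ :=
  Matrix.of fun i j => ∑ l ∈ Finset.range ((j : ℕ) + 1), ((Real.log (1 / t) ^ l / l.factorial : ℝ) : ℂ) *
    ∑' k : ℕ, ((PowerSeries.coeff ((j : ℕ) - l) (kx k ^ (i : ℕ) * g k) : ℚ) : ℂ) * ((c : ℂ) / (t : ℂ)) ^ k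

/-- some `r` of the numbers `v i` are independent in degree at most `δ` over `K` -/
def TG {ι : Type} (r δ : ℕ) (K : IntermediateField ℚ ℂ) (v : ι → ℂ) : Prop :=
  ∃ σ : Fin r → ι, Function.Injective σ ∧ ∀ Q : MvPolynomial (Fin r) K, (∀ i, Q.degreeOf i ≤ δ) →
    MvPolynomial.aeval (fun i => v (σ i)) Q = 0 → Q = 0

/-- the conclusion -/
def BG (n : ℕ) (g : ℕ → ℚ⟦X⟧) (c : ℕ) (Ω : Matrix (Fin n) (Fin n) ℂ) (G k δ D r : ℕ) (κ : ℝ) (M : ℕ) : Prop :=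
  ∀ t : Fin k → ℕ, (∀ l, M ≤ t l ∧ (t l : ℝ) ≤ M + (M : ℝ) ^ κ) → (∀ l l', l ≠ l' → (G : ℤ) ≤ |(t l : ℤ) - t l'|) →
    ∀ (K : IntermediateField ℚ ℂ) [FiniteDimensional ℚ K], finrank ℚ K ≤ D →
      ∀ (R S : Fin k → (Matrix (Fin n) (Fin n) K)ˣ) (P : Fin k → Matrix (Fin n) (Fin n) ℂ),
        (∀ l, P l = (R l : Matrix (Fin n) (Fin n) K).map (algebraMap K ℂ) * (Yg n g c (t l) * Ω) *
          (S l : Matrix (Fin n) (Fin n) K).map (algebraMap K ℂ)) →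
        TG (ι := Fin k × Option (Fin n × Fin n)) r δ K
          (fun x => x.2.elim ((Real.log (t x.1) : ℝ) : ℂ) fun p => P x.1 p.1 p.2) ∧
        TG (ι := Fin k × Fin n × Fin n) (r - k) δ K (fun x => P x.1 x.2.1 x.2.2)

/-- the coefficients for the operators `(θ^(2m) - z ∏ (θ + α_j) (θ + 1 - α_j)) ∘ θ^s` -/
noncomputable def gs {m : ℕ} (s : ℕ) (α : Fin m → ℚ) (k : ℕ) : ℚ⟦X⟧ :=
  ∏ l ∈ Finset.range k, ((∏ j, ((kx l + C (α j)) * (kx l + C (1 - α j)))) * kx l ^ s * ((kx (l + 1))⁻¹) ^ (s + 2 * m))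

/-- GSM. As `ga_mul` in `P8H40/HA/Ctg2.lean`. -/
def S_GSM : Prop := ∀ (m s : ℕ) (α : Fin m → ℚ) (k : ℕ), gs s α k * Polynomial.aeval (kx 0) (Mp α) =
  aq (s + 2 * m) (Polynomial.X ^ s * QB α) k * Polynomial.aeval (kx k) (Mp α)

end Pool.Agent.P8H30.MX
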