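import Pool.Agent.P8H30.MX.Stm2
import Pool.Agent.P8H40.HA.Fin

/-!
# Project MX, third part: all tuples
-/

set_option autoImplicit false

open PowerSeries Module Matrix

namespace Pool.Agent.P8H30.MX

open Pool.Agent.Y113 (ps SDc Cv)
open Pool.Agent.Y119.HY (Am um uc ec Jm kx aq hq Hq Hc Hf Yf E om tv Sol Lens Gal cm QD QB a0 hps)
open Pool.Agent.Y119.HZ (Hp Wp T1 A1 ix evq hf km th)
open Pool.Agent.P8H40.HA (sc Nz Vx Pm rr Md Mp M0)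

/-- MAIN. Copy of `base_result` (with `Zc`, `Wc`, `coeff_zero_Zc`, `ode_Zc`, `rank_le`) in `P8H40/HA/Main.lean`, for a general
inverse `W`, from ODI. -/
def S_MAIN : Prop := ∀ (n : ℕ) (Q : Polynomial ℚ) (W : Matrix (Fin n) (Fin n) ℚ⟦X⟧) (r : ℕ) (T : Fin r → Fin n × Fin n) (c : ℕ),
  QG n Q → (∀ i j, SDc (Hp n Q i j)) → Hp n Q * W = 1 → (∀ i j, SDc (W i j)) →
    AlgebraicIndependent (Polynomial ℚ) (fun i => Hp n Q (T i).1 (T i).2) → 1 ≤ c →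
    ∃ G : ℕ, ∀ k δ D : ℕ,
      (∃ (κ : ℝ) (M₀ : ℕ), 0 < κ ∧ ∀ M : ℕ, M₀ ≤ M → ∀ Ω : Matrix (Fin n) (Fin n) ℂ, IsUnit Ω →
        Pool.Agent.Results.MP_cbf1af_ag.AllTuplesDegenerating.Bound Ω (Nz n) (Pool.Agent.P8H40.HA.Zc n Q c) G k δ D
          ((k - 1) * (r + 1)) κ M) ∧
      ∀ Ω : Matrix (Fin n) (Fin n) ℂ, IsUnit Ω → ∀ (t : ℕ) (ω : Fin t → ℂ),
        (∀ i j, IsAlgebraic (Algebra.adjoin ℚ (Set.range ω)) (Ω i j)) →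
        ∃ (κ : ℝ) (M₀ : ℕ), 0 < κ ∧ ∀ M : ℕ, M₀ ≤ M →
          Pool.Agent.Results.MP_cbf1af_ag.AllTuplesDegenerating.Bound Ω (Nz n) (Pool.Agent.P8H40.HA.Zc n Q c) G k δ D
            (k * (r + 1) - (t + 1)) κ M

/-- FIN. Copy of `gauge_Ya`, `Bound.toA` in `P8H40/HA/Fin.lean` and of `Y_eq`, `periods_alone`, `result` in
`Results/MP_57341d_ag/HypergeometricAllTuples.lean`, for general `n`, `f`, `g` in the place of `2 * m`, `Mp α`, `ga α`; from MAIN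
and VAL. (`Pi` is `cm (Pm n (Polynomial.aeval (kx 0) f)⁻¹)`.) The condition that `M₀ > c` is obtained by enlarging `M₀`. -/
def S_FIN : Prop := ∀ (n : ℕ) (Q f : Polynomial ℚ) (g : ℕ → ℚ⟦X⟧) (W : Matrix (Fin n) (Fin n) ℚ⟦X⟧) (r : ℕ)
  (T : Fin r → Fin n × Fin n) (c : ℕ), QG n Q → (∀ i j, SDc (Hp n Q i j)) → Hp n Q * W = 1 → (∀ i j, SDc (W i j)) →
    AlgebraicIndependent (Polynomial ℚ) (fun i => Hp n Q (T i).1 (T i).2) → f.eval 0 ≠ 0 → g 0 = 1 →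
      (∀ k, g k * Polynomial.aeval (kx 0) f = aq n Q k * Polynomial.aeval (kx k) f) → 1 ≤ c →
        ∃ G : ℕ, ∀ k δ D : ℕ,
          (∃ (κ : ℝ) (M₀ : ℕ), 0 < κ ∧ c < M₀ ∧ ∀ M : ℕ, M₀ ≤ M → ∀ Ω : Matrix (Fin n) (Fin n) ℂ, IsUnit Ω →
            BG n g c Ω G k δ D ((k - 1) * (r + 1)) κ M) ∧
          ∀ Ω : Matrix (Fin n) (Fin n) ℂ, IsUnit Ω → ∀ (t : ℕ) (ω : Fin t → ℂ),
            (∀ i j, IsAlgebraic (Algebra.adjoin ℚ (Set.range ω)) (Ω i j)) →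
            ∃ (κ : ℝ) (M₀ : ℕ), 0 < κ ∧ c < M₀ ∧ ∀ M : ℕ, M₀ ≤ M →
              BG n g c Ω G k δ D (k * (r + 1) - (t + 1)) κ M

end Pool.Agent.P8H30.MX
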